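import Pool.Agent.N190.Lin.Conv
import Pool.Agent.X310.Mom4
import Pool.Agent.H447R3.AoDefs

/-!
# The conjecture B in the degrees up to `d` and linear sections
-/

set_option autoImplicit false

open CategoryTheory AlgebraicGeometry Finset Polynomial

universe u v

namespace Pool.Agent.N190.Lin

open Pool.Agent.H914 Pool.Agent.H447 Pool.Agent.W534 Pool.Agent.W537 VarClass Obj WeilCohomology

variable {k : Type u} [Field k] {𝒱 : VarClass k} {ops : CycleOps 𝒱}
  {W : WeilCohomology.{u, v} ops} {X V : 𝒱.Obj} {D : X.Cycles}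

/-- The conjecture A in one codimension implies the equality of the ranks. -/
lemma rank_of_AIn {E : V.Cycles} (hE : V.IsCyc 1 E) (hHL : HardLefschetz W V E) {p : ℕ}
    (hp : 2 * p ≤ V.dim) (hA : LefschetzAIn W V E p) :
    cycleRank W V p = cycleRank W V (V.dim - p : ℕ) := by
  obtain ⟨c, hc⟩ : ∃ c, V.dim = 2 * p + c := Nat.exists_eq_add_of_le hp
  have hLp : ∀ x ∈ spanCycles W V p,
      (LinearMap.mulLeft W.K (W.cl V E) ^ c) x ∈ spanCycles W V ((p + c : ℕ) : ℤ) := by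
    intro x hx
    induction hx using Submodule.span_induction with
    | mem x hx =>
      obtain ⟨p', hp', z, hz, rfl⟩ := hx
      obtain rfl : p' = p := by exact_mod_cast hp'
      rw [← cl_divPow]
      exact Submodule.subset_span ⟨p' + c, rfl, _, divPow_mem hE c hz, rfl⟩
    | zero => rw [map_zero]; exact Submodule.zero_mem _
    | add x y _ _ hx hy => rw [map_add]; exact Submodule.add_mem _ hx hy
    | smul a x _ hx => rw [map_smul]; exact Submodule.smul_mem _ _ hx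
  rw [show V.dim - p = p + c by omega]
  refine finrank_eq_of_surj (T := LinearMap.mulLeft W.K (W.cl V E) ^ c) hLp ?_ ?_
  · intro x hx h0
    have h1 : x ∈ W.gr V (2 * p) := H914.span_gr hx
    refine (hHL (2 * p) (by omega)).1 x h1 ?_
    rwa [show V.dim - 2 * p = c by omega]
  · intro y hy
    induction hy using Submodule.span_induction with
    | mem y hy =>
      obtain ⟨p', hp', z, hz, rfl⟩ := hy
      obtain rfl : p' = p + c := by exact_mod_cast hp'
      obtain ⟨z', hz', h2⟩ := hA z (by rwa [show V.dim - p = p + c by omega])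
      refine ⟨W.cl V z', Submodule.subset_span ⟨p, rfl, z', hz', rfl⟩, ?_⟩
      rw [← h2, cl_divPow, show V.dim - 2 * p = c by omega]
    | zero => exact ⟨0, Submodule.zero_mem _, map_zero _⟩
    | add x y _ _ hx hy =>
      obtain ⟨a, ha, rfl⟩ := hx
      obtain ⟨b, hb, rfl⟩ := hy
      exact ⟨a + b, Submodule.add_mem _ ha hb, map_add _ _ _⟩
    | smul c x _ hx =>
      obtain ⟨a, ha, rfl⟩ := hx
      exact ⟨c • a, Submodule.smul_mem _ _ ha, map_smul _ _ _⟩

lemma span_of_quotient {Y : 𝒱.Obj} {i : Y ⟶ X} {z : (X.prod Y).Cycles}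
    (hz : IsGraphQuotient W D i z) : GraphInSpan W D i :=
  ⟨_, Submodule.subset_span ⟨_, rfl, z, hz.1, rfl⟩, hz.2⟩

/-- The conjecture B in the degree zero. -/
lemma kinvIn_zero (hD : X.IsCyc 1 D) (hHL : HardLefschetz W X D) : KInvIn W X D 0 := by
  by_cases h1 : (1 : W.H X) = 0
  · refine ⟨0, Submodule.zero_mem _, fun a _ => ?_⟩
    rw [← mul_one a, h1, mul_zero, map_zero, map_zero]
  · have hne := X310.Mom.tr_pow_ne hD hHL h1
    have h1m : (1 : W.H X) ∈ spanCycles W X 0 := by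
      have := X310.Mom.pow_mem_span (W := W) hD 0
      rwa [pow_zero] at this
    refine ⟨(W.tr X (W.cl X D ^ X.dim))⁻¹ • X310.Mom.outer 1 1,
      Submodule.smul_mem _ _ (KOp.cast (X310.Mom.kop_outer h1m h1m) (by simp)), ?_⟩
    intro a ha
    rw [W.gr_zero, Submodule.mem_span_singleton] at ha
    obtain ⟨c, rfl⟩ := ha
    rw [Nat.sub_zero, map_smul, map_smul, LinearMap.pow_mulLeft, LinearMap.mulLeft_apply, mul_one,
      LinearMap.smul_apply, X310.Mom.outer_apply, one_mul, smul_smul, smul_smul, mul_assoc,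
      inv_mul_cancel₀ hne, mul_one]

/-- **One system of cycles for all theories.** -/
theorem one_system (hD : X.IsCyc 1 D) {d : ℕ} (hd : d ≤ X.dim) {Y : ℕ → 𝒱.Obj}
    (i : ∀ r, Y r ⟶ X) (hY : ∀ r ∈ Set.Icc 1 d, (Y r).dim = r) (W : WeilCohomology.{u, v} ops)
    (hB : BUpTo W X D d) :
    ∃ (z : ∀ r, (X.prod (Y r)).Cycles) (Λ : ℕ → (X.prod X).Cycles),
      ∀ W' : WeilCohomology.{u, v} ops, (∀ l ≤ d, W'.betti X l = W.betti X l) →
        HardLefschetz W' X D → (∀ r ∈ Set.Icc 1 d, IsLinearSection W' D (i r)) →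
          (∀ r ∈ Set.Icc 1 d, IsGraphQuotient W' D (i r) (z r)) ∧
            ∀ l ≤ d, InducesInverse W' X D l (Λ l) := by
  obtain ⟨Λ, hΛ⟩ := oneCycle hD hd W hB
  have hz : ∀ r, ∃ z : (X.prod (Y r)).Cycles, r ∈ Set.Icc 1 d →
      ∀ W' : WeilCohomology.{u, v} ops, (∀ l ≤ d, W'.betti X l ≤ W.betti X l) →
        HardLefschetz W' X D → IsLinearSection W' D (i r) → IsGraphQuotient W' D (i r) z := by
    intro r
    by_cases hr : r ∈ Set.Icc 1 d
    · obtain ⟨z, hz⟩ := exists_quotient hD hd (Y := Y r) (by rw [hY r hr]; exact hr.2) W hB (i r)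
      exact ⟨z, fun _ => hz⟩
    · exact ⟨0, fun h => absurd h hr⟩
  choose z hz using hz
  refine ⟨z, Λ, fun W' hb hHL hs => ⟨fun r hr =>
    hz r hr W' (fun l hl => (hb l hl).le) hHL (hs r hr), ?_⟩⟩
  have h3 : ∀ i ≤ d, InducesInverse W' X D i (Λ i) := ((hΛ W').out 0 2).1 hb
  exact h3

/-- **The equivalence.** -/
theorem linear_tfae (hD : X.IsCyc 1 D) {d : ℕ} (hd : d ≤ X.dim) {Y : ℕ → 𝒱.Obj}
    (i : ∀ r, Y r ⟶ X) (hY : ∀ r ∈ Set.Icc 1 d, (Y r).dim = r) (hHL : HardLefschetz W X D)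
    (hs : ∀ r ∈ Set.Icc 1 d, IsLinearSection W D (i r)) :
    List.TFAE [
      BUpTo W X D d,
      ∀ r ∈ Set.Icc 1 d, ∃ z, IsGraphQuotient W D (i r) z,
      ∀ r ∈ Set.Icc 1 d, GraphInSpan W D (i r),
      ∃ (z : ∀ r, (X.prod (Y r)).Cycles) (Λ : ℕ → (X.prod X).Cycles),
        ∀ W' : WeilCohomology.{u, v} ops, (∀ l ≤ d, W'.betti X l = W.betti X l) →
          HardLefschetz W' X D → (∀ r ∈ Set.Icc 1 d, IsLinearSection W' D (i r)) →
            (∀ r ∈ Set.Icc 1 d, IsGraphQuotient W' D (i r) (z r)) ∧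
              ∀ l ≤ d, InducesInverse W' X D l (Λ l)] := by
  tfae_have 1 → 4 := one_system hD hd i hY W
  tfae_have 4 → 2 := by
    rintro ⟨z, Λ, h⟩ r hr
    exact ⟨z r, (h W (fun _ _ => rfl) hHL hs).1 r hr⟩
  tfae_have 2 → 3 := by
    intro h r hr
    obtain ⟨z, hz⟩ := h r hr
    exact span_of_quotient hz
  tfae_have 3 → 1 := by
    intro h
    apply bUpTo_of_kinv hD hHL hd
    intro r hr
    rcases Nat.eq_zero_or_pos r with rfl | hr0
    · exact kinvIn_zero hD hHL
    · have hr' : r ∈ Set.Icc 1 d := ⟨hr0, hr⟩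
      have := kinvIn_of_span (hs r hr') hD hHL (h r hr')
      rwa [hY r hr'] at this
  tfae_finish

/-- **The conjecture A for the products with the linear sections.** -/
theorem bUpTo_of_ranks (hD : X.IsCyc 1 D) {d : ℕ} (hd : d ≤ X.dim) {Y : ℕ → 𝒱.Obj}
    (i : ∀ r, Y r ⟶ X) (hY : ∀ r ∈ Set.Icc 1 d, (Y r).dim = r) (hHL : HardLefschetz W X D)
    (hs : ∀ r ∈ Set.Icc 1 d, IsLinearSection W D (i r))
    (h : ∀ r ∈ Set.Icc 1 d, (∃ E, (X.prod (Y r)).IsCyc 1 E ∧ HardLefschetz W (X.prod (Y r)) E ∧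
      LefschetzAIn W (X.prod (Y r)) E r) ∨
        cycleRank W (X.prod (Y r)) r = cycleRank W (X.prod (Y r)) X.dim) :
    BUpTo W X D d := by
  apply ((linear_tfae hD hd i hY hHL hs).out 2 0).1
  intro r hr
  apply span_of_rank (hs r hr) hD hHL
  rw [hY r hr]
  have hrd : r ≤ d := hr.2
  rcases h r hr with ⟨E, hE, hHLE, hA⟩ | h
  · have hdim : (X.prod (Y r)).dim = X.dim + r := by rw [dim_prod, hY r hr]
    have h1 := rank_of_AIn hE hHLE (by rw [hdim]; omega) hA
    rwa [hdim, Nat.add_sub_cancel] at h1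
  · exact h

end Pool.Agent.N190.Lin
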