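import Pool.Agent.N190.Lin.Defs
import Pool.Agent.W534.UDefs
import Pool.Agent.H447R3.AoDefs
import Pool.Agent.H447R3.DegDefs

/-!
# Cycles on the products with the linear sections: definitions
-/

set_option autoImplicit false

open CategoryTheory AlgebraicGeometry

universe u v

namespace Pool.Agent.N190.Lin

open Pool.Agent.H914 Pool.Agent.H447 Pool.Agent.W534 Pool.Agent.W537 VarClass Obj WeilCohomology

variable {k : Type u} [Field k] {𝒱 : VarClass k} {ops : CycleOps 𝒱}

/-- For the cycles on the product of `X` with its linear section `Y` of dimension `r`: for some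
divisor `E` with hard Lefschetz the conjecture A holds in codimension `r`; or there are as many
independent classes in codimension `r` as in dimension `r`; or homological and numerical equivalence
agree for the cycles of dimension `r`. -/
def GoodProduct (W : WeilCohomology.{u, v} ops) (X Y : 𝒱.Obj) (r : ℕ) : Prop :=
  (∃ E, (X.prod Y).IsCyc 1 E ∧ HardLefschetz W (X.prod Y) E ∧ LefschetzAIn W (X.prod Y) E r) ∨
    cycleRank W (X.prod Y) r = cycleRank W (X.prod Y) X.dim ∨
      HomEqNumIn W (X.prod Y) X.dim

end Pool.Agent.N190.Lin
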