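import Pool.Agent.N190.Lin.Main
import Pool.Agent.N190.Lin.SectDefs
import Pool.Agent.N190.Cod.Main
import Pool.Agent.H447R3.DegB
import Pool.Agent.X310.Odd
import Pool.Agent.X310.Mom5
import Pool.Agent.W550.B.Top

/-!
# Cycles on the products with the linear sections
-/

set_option autoImplicit false

open CategoryTheory AlgebraicGeometry Finset

universe u v

namespace Pool.Agent.N190.Lin

open Pool.Agent.H914 Pool.Agent.H447 Pool.Agent.W534 Pool.Agent.W537 Pool.Agent.X310.Gap
  VarClass Obj WeilCohomology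

variable {k : Type u} [Field k] {𝒱 : VarClass k} {ops : CycleOps 𝒱}
  {W : WeilCohomology.{u, v} ops} {X V : 𝒱.Obj} {D : X.Cycles}

/-- The powers of a divisor on the span of the cycles. -/
lemma pow_span {E : V.Cycles} (hE : V.IsCyc 1 E) (c : ℕ) {p : ℕ} {x : W.H V}
    (hx : x ∈ spanCycles W V p) :
    (LinearMap.mulLeft W.K (W.cl V E) ^ c) x ∈ spanCycles W V ((p + c : ℕ) : ℤ) := by
  induction hx using Submodule.span_induction with
  | mem x hx =>
    obtain ⟨p', hp', z, hz, rfl⟩ := hx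
    obtain rfl : p' = p := by exact_mod_cast hp'
    rw [← cl_divPow]
    exact Submodule.subset_span ⟨p' + c, rfl, _, divPow_mem hE c hz, rfl⟩
  | zero => rw [map_zero]; exact Submodule.zero_mem _
  | add x y _ _ hx hy => rw [map_add]; exact Submodule.add_mem _ hx hy
  | smul a x _ hx => rw [map_smul]; exact Submodule.smul_mem _ _ hx

/-- Homological and numerical equivalence for the cycles of one dimension give the equality of the
ranks. -/
lemma rank_of_D {E : V.Cycles} (hE : V.IsCyc 1 E) (hHL : HardLefschetz W V E) {p q : ℕ}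
    (hp : p ≤ q) (hpq : p + q = V.dim) (hDq : HomEqNumIn W V q) :
    cycleRank W V p = cycleRank W V q := by
  obtain ⟨c, rfl⟩ := Nat.exists_eq_add_of_le hp
  apply le_antisymm
  · -- hard Lefschetz
    set f : spanCycles W V p →ₗ[W.K] spanCycles W V ((p + c : ℕ) : ℤ) :=
      (LinearMap.mulLeft W.K (W.cl V E) ^ c).restrict (fun x hx => pow_span hE c hx) with hf
    refine LinearMap.finrank_le_finrank_of_injective (f := f) ?_
    rw [← LinearMap.ker_eq_bot, LinearMap.ker_eq_bot']
    intro x hx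
    apply Subtype.ext
    have h1 : (x : W.H V) ∈ W.gr V (2 * p) := H914.span_gr x.2
    refine (hHL (2 * p) (by omega)).1 x h1 ?_
    rw [show V.dim - 2 * p = c by omega]
    exact congrArg Subtype.val hx
  · -- the pairing
    set g : spanCycles W V ((p + c : ℕ) : ℤ) →ₗ[W.K] Module.Dual W.K (spanCycles W V p) :=
      { toFun := fun y => (W.tr V ∘ₗ LinearMap.mulRight W.K (y : W.H V)) ∘ₗ
          (spanCycles W V p).subtype
        map_add' := fun y y' => by
          ext x; simp [mul_add]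
        map_smul' := fun r y => by
          ext x; simp } with hg
    have hinj : Function.Injective g := by
      rw [← LinearMap.ker_eq_bot, LinearMap.ker_eq_bot']
      intro y hy
      apply Subtype.ext
      refine HomEqNumIn.span (q := p + c) (p := p) (by omega) hDq y.2 fun w hw => ?_
      have h1 : W.cl V w ∈ spanCycles W V p := Submodule.subset_span ⟨p, rfl, w, hw, rfl⟩
      exact LinearMap.congr_fun hy ⟨_, h1⟩
    have := LinearMap.finrank_le_finrank_of_injective hinj
    rwa [Subspace.dual_finrank_eq] at this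

/-- The conjecture B for linear sections. -/
theorem section_B {Y : 𝒱.Obj} {i : Y ⟶ X} (hs : IsLinearSection W D i) (hD : X.IsCyc 1 D)
    (hHL : HardLefschetz W X D) (hB : LefschetzB W X D) : LefschetzB W Y (ops.pull i D) := by
  have h := hs.lsec hD hHL
  have hE : Y.IsCyc 1 (ops.pull i D) := ops.pull_mem i hD
  have hle := hs.le
  have hX := inj_of_lefschetzB hD hHL hB
  refine lefschetzB_of_inj hE h.hl' fun c hc => ?_
  obtain ⟨ν, hν, hinj⟩ := hX (c + (X.dim - Y.dim)) (by omega)
  rcases Nat.eq_zero_or_pos c with rfl | hc0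
  · exact ⟨LinearMap.id, KOp.cast (KOp.id Y) (by simp), fun a _ h => h⟩
  refine ⟨(W.map i).toLinearMap ∘ₗ ν ∘ₗ W.push i, ?_, ?_⟩
  · refine KOp.cast (KOp.comp (qop_pull i).kop (KOp.comp hν (qop_push i).kop)) ?_
    push_cast
    omega
  · intro a ha h0
    have h1 : W.push i a ∈ W.gr X (X.dim + (c + (X.dim - Y.dim))) := by
      have := h.hγ _ a ha
      rwa [show Y.dim + c + 2 * (X.dim - Y.dim) = X.dim + (c + (X.dim - Y.dim)) by omega] at this
    have h2 : ν (W.push i a) ∈ W.gr X (Y.dim - c) := kop_mem hν h1 (by push_cast; omega)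
    have h3 : ν (W.push i a) = 0 := h.ι_inj (by omega) h2 h0
    exact h.inj _ (by omega) a ha (hinj _ h1 h3)

lemma rank_of_good {Y : 𝒱.Obj} {i : Y ⟶ X} (hs : IsLinearSection W D i) (hD : X.IsCyc 1 D)
    (hHL : HardLefschetz W X D) (h : GoodProduct W X Y Y.dim) :
    cycleRank W (X.prod Y) Y.dim = cycleRank W (X.prod Y) X.dim := by
  have hle := hs.le
  have hdim : (X.prod Y).dim = X.dim + Y.dim := dim_prod _ _
  rcases h with ⟨E, hE, hHLE, hA⟩ | h | h
  · have h1 := rank_of_AIn hE hHLE (by rw [hdim]; omega) hA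
    rwa [hdim, Nat.add_sub_cancel] at h1
  · exact h
  · exact rank_of_D (TH720.LB.isCyc_sumDiv hD (ops.pull_mem i hD))
      (TH125.Gal.hardLefschetz_prod hD (ops.pull_mem i hD) hHL (hs.lsec hD hHL).hl') hle
      (by rw [hdim]; omega) h

/-- **Sections of small dimension.** -/
theorem bUpTo_of_good (hD : X.IsCyc 1 D) {d : ℕ} (hd : d ≤ X.dim) {Y : ℕ → 𝒱.Obj}
    (i : ∀ r, Y r ⟶ X) (hY : ∀ r ∈ Set.Icc 1 d, (Y r).dim = r) (hHL : HardLefschetz W X D)
    (hs : ∀ r ∈ Set.Icc 1 d, IsLinearSection W D (i r))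
    (h : ∀ r ∈ Set.Icc 1 d, GoodProduct W X (Y r) r) : BUpTo W X D d := by
  refine bUpTo_of_ranks hD hd i hY hHL hs fun r hr => Or.inr ?_
  have := h r hr
  have h1 := rank_of_good (hs r hr) hD hHL (by rwa [hY r hr])
  rwa [hY r hr] at h1

/-- the conjecture B from the degrees below the dimension -/
lemma B_of_bUpTo (hD : X.IsCyc 1 D) (hHL : HardLefschetz W X D)
    (hB : BUpTo W X D (X.dim - 1)) : LefschetzB W X D := by
  refine (Pool.Agent.X310.lefschetzB_iff_kinv hD hHL).2 fun c hc => ?_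
  rcases Nat.eq_zero_or_pos c with rfl | hc0
  · exact kinv_zero
  · obtain ⟨z, hz, h1, -⟩ := hB (X.dim - c) (by omega)
    refine ⟨W.corr (W.cl _ z), KOp.gen (by omega) hz, fun a ha => ?_⟩
    have := h1 a ha
    rwa [show X.dim - (X.dim - c) = c by omega] at this

/-- **The conjecture B and the cycles on the products with the linear sections.** -/
theorem sections_tfae (hD : X.IsCyc 1 D) {Y : ℕ → 𝒱.Obj}
    (i : ∀ r, Y r ⟶ X) (hY : ∀ r ∈ Set.Ico 1 X.dim, (Y r).dim = r) (hHL : HardLefschetz W X D)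
    (hs : ∀ r ∈ Set.Ico 1 X.dim, IsLinearSection W D (i r)) :
    List.TFAE [
      LefschetzB W X D,
      ∀ r ∈ Set.Ico 1 X.dim, LefschetzAIn W (X.prod (Y r)) (mixSum ops (i r) D) r,
      ∀ r ∈ Set.Ico 1 X.dim,
        cycleRank W (X.prod (Y r)) r = cycleRank W (X.prod (Y r)) X.dim,
      ∀ r ∈ Set.Ico 1 X.dim, GoodProduct W X (Y r) r] := by
  have hE : ∀ r, (X.prod (Y r)).IsCyc 1 (mixSum ops (i r) D) := fun r =>
    TH720.LB.isCyc_sumDiv hD (ops.pull_mem (i r) hD)
  have hEL : ∀ r ∈ Set.Ico 1 X.dim, HardLefschetz W (X.prod (Y r)) (mixSum ops (i r) D) :=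
    fun r hr => TH125.Gal.hardLefschetz_prod hD (ops.pull_mem (i r) hD) hHL
      ((hs r hr).lsec hD hHL).hl'
  have hAB : LefschetzB W X D → ∀ r ∈ Set.Ico 1 X.dim,
      LefschetzAIn W (X.prod (Y r)) (mixSum ops (i r) D) r ∧
        cycleRank W (X.prod (Y r)) r = cycleRank W (X.prod (Y r)) X.dim := by
    intro hB r hr
    have h1 : LefschetzB W (X.prod (Y r)) (mixSum ops (i r) D) :=
      X310.Mom.lefschetzB_prod hD (ops.pull_mem (i r) hD) hHL ((hs r hr).lsec hD hHL).hl' hB
        (section_B (hs r hr) hD hHL hB)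
    have hdim : (X.prod (Y r)).dim = X.dim + r := by rw [dim_prod, hY r hr]
    have hlt : r < X.dim := hr.2
    have h2 := Cod.aIn_of_inverts (hE r) (hEL r hr) (c := r) (by rw [hdim]; omega)
      (W550.B.exists_inverts (hE r) (hEL r hr) h1 _ (by rw [hdim]; omega))
    rwa [hdim, Nat.add_sub_cancel] at h2
  tfae_have 1 → 2 := fun hB r hr => (hAB hB r hr).1
  tfae_have 1 → 3 := fun hB r hr => (hAB hB r hr).2
  tfae_have 2 → 4 := fun hA r hr => Or.inl ⟨_, hE r, hEL r hr, hA r hr⟩
  tfae_have 3 → 4 := fun hA r hr => Or.inr (Or.inl (hA r hr))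
  tfae_have 4 → 1 := by
    intro h
    apply B_of_bUpTo hD hHL
    have hmem : ∀ r, r ∈ Set.Icc 1 (X.dim - 1) → r ∈ Set.Ico 1 X.dim := by
      rintro r ⟨h1, h2⟩
      exact ⟨h1, by omega⟩
    exact bUpTo_of_good hD (Nat.sub_le _ _) i (fun r hr => hY r (hmem r hr)) hHL
      (fun r hr => hs r (hmem r hr)) (fun r hr => h r (hmem r hr))
  tfae_finish

end Pool.Agent.N190.Lin
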