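import Pool.Agent.W534.Hyp3
import Pool.Agent.W537.OneCycleB

/-!
# Linear algebra of a linear section of arbitrary codimension
-/

set_option autoImplicit false

open Finset

namespace Pool.Agent.N190.Lin

open Pool.Agent.H914 Pool.Agent.H447 Pool.Agent.W534

variable {K : Type*} [Field K] {V U : Type*} [AddCommGroup V] [Module K V] [AddCommGroup U]
  [Module K U] {gr : ℕ → Submodule K V} {gr' : ℕ → Submodule K U} {r j : ℕ}
  {L : Module.End K V} {M : Module.End K U} {ι : V →ₗ[K] U} {γ : U →ₗ[K] V}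

/-- The linear algebra of a linear section of codimension `j` and dimension `r`. -/
structure LSec (gr : ℕ → Submodule K V) (gr' : ℕ → Submodule K U) (r j : ℕ)
    (L : Module.End K V) (M : Module.End K U) (ι : V →ₗ[K] U) (γ : U →ₗ[K] V) : Prop where
  int : DirectSum.IsInternal gr
  int' : DirectSum.IsInternal gr'
  bd : ∀ i, 2 * (r + j) + 1 ≤ i → gr i = ⊥
  bd' : ∀ i, 2 * r + 1 ≤ i → gr' i = ⊥
  hL : IsHom gr 2 L
  hM : IsHom gr' 2 M
  hι : ∀ i, ∀ a ∈ gr i, ι a ∈ gr' i
  hγ : ∀ i, ∀ b ∈ gr' i, γ b ∈ gr (i + 2 * j)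
  γι : ∀ a, γ (ι a) = (L ^ j) a
  ιL : ∀ a, ι (L a) = M (ι a)
  Lγ : ∀ b, L (γ b) = γ (M b)
  hl : HardLef gr (r + j) L
  surj : ∀ q < r, ∀ b ∈ gr' q, ∃ a ∈ gr q, ι a = b
  inj : ∀ q, r < q → ∀ b ∈ gr' q, γ b = 0 → b = 0

namespace LSec

variable (h : LSec gr gr' r j L M ι γ)

include h

lemma ιL_pow (s : ℕ) (a : V) : ι ((L ^ s) a) = (M ^ s) (ι a) := by
  induction s with
  | zero => rfl
  | succ s ih => rw [pow_succ', Module.End.mul_apply, h.ιL, ih, pow_succ', Module.End.mul_apply]

lemma Lγ_pow (s : ℕ) (b : U) : (L ^ s) (γ b) = γ ((M ^ s) b) := by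
  induction s with
  | zero => rfl
  | succ s ih => rw [pow_succ', Module.End.mul_apply, ih, h.Lγ, pow_succ', Module.End.mul_apply]

/-- Injectivity of the restriction. -/
lemma ι_inj {q : ℕ} (hq : q ≤ r) {a : V} (ha : a ∈ gr q) (h0 : ι a = 0) : a = 0 := by
  apply (h.hl q (by omega)).1 a ha
  rw [show r + j - q = (r - q) + j by omega, pow_add, Module.End.mul_apply, ← h.γι, h0, map_zero,
    map_zero]

/-- Hard Lefschetz for the linear section. -/
lemma hl' : HardLef gr' r M := by
  intro q hq
  rcases hq.lt_or_eq with hq | rfl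
  · constructor
    · intro b hb h0
      obtain ⟨a, ha, rfl⟩ := h.surj q hq b hb
      rw [← h.ιL_pow] at h0
      have h1 : (L ^ (r + j - q)) a = 0 := by
        rw [show r + j - q = j + (r - q) by omega, pow_add, Module.End.mul_apply, ← h.γι, h0,
          map_zero]
      rw [(h.hl q (by omega)).1 a ha h1, map_zero]
    · intro b hb
      obtain ⟨a, ha, hab⟩ := (h.hl q (by omega)).2 (γ b) (by
        have := h.hγ _ b hb
        rwa [show 2 * r - q + 2 * j = 2 * (r + j) - q by omega] at this)
      refine ⟨ι a, h.hι q a ha, ?_⟩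
      rw [← sub_eq_zero]
      apply h.inj (2 * r - q) (by omega)
      · apply Submodule.sub_mem _ _ hb
        have := pow_L_mem h.hM (h.hι q a ha) (r - q)
        rwa [show q + 2 * (r - q) = 2 * r - q by omega] at this
      · rw [map_sub, ← h.ιL_pow, h.γι, ← Module.End.mul_apply, ← pow_add,
          show j + (r - q) = r + j - q by omega, hab, sub_self]
  · constructor
    · intro b _ h0
      simpa using h0
    · intro b hb
      refine ⟨b, ?_, ?_⟩
      · rwa [show 2 * q - q = q by omega] at hb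
      · simp

/-- The restriction kills the tops of the strings. -/
lemma ι_string {i : ℕ} (hi : i ≤ r + j) {a : V} (ha : a ∈ gr i)
    (hp : (L ^ (r + j - i + 1)) a = 0) {s : ℕ} (hs : r + j - i + 1 ≤ s + j) :
    ι ((L ^ s) a) = 0 := by
  by_cases hir : r < i
  · have h1 : ι a = 0 := by
      apply h.inj i hir _ (h.hι i a ha)
      rw [h.γι]
      exact L_pow_gt hp (by omega)
    rw [h.ιL_pow, h1, map_zero]
  · apply h.inj (i + 2 * s) (by omega) _ (h.hι _ _ (pow_L_mem h.hL ha s))
    rw [h.γι, ← Module.End.mul_apply, ← pow_add]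
    exact L_pow_gt hp (by omega)

end LSec

/-- the powers of the step operator -/
lemma step_pow {n : ℕ} {Lam : Module.End K V} (hLam : IsLam gr n L Lam) {i : ℕ} (hi : i ≤ n)
    {a : V} (ha : a ∈ gr i) (hp : (L ^ (n - i + 1)) a = 0) {t : ℕ} (ht : t ≤ n - i) (b : ℕ) :
    ((stepOp n L Lam) ^ b) ((L ^ t) a) = (t.descFactorial b : K) • (L ^ (t - b)) a := by
  induction b with
  | zero => simp
  | succ b ih =>
    rw [pow_succ', Module.End.mul_apply, ih, map_smul, stepOp_apply hLam hi ha hp (by omega),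
      smul_smul, Nat.descFactorial_succ, show t - (b + 1) = t - b - 1 by omega]
    congr 1
    push_cast
    ring

lemma desc_ident (t b : ℕ) : (t + 1).descFactorial (b + 1) =
    t.descFactorial (b + 1) + (b + 1) * t.descFactorial b := by
  rw [Nat.succ_descFactorial_succ, Nat.descFactorial_succ]
  by_cases h : b ≤ t
  · obtain ⟨c, rfl⟩ := Nat.exists_eq_add_of_le h
    rw [Nat.add_sub_cancel_left]
    ring
  · rw [Nat.descFactorial_of_lt (by omega)]
    simp

/-- the restricted powers of the step operator -/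
noncomputable def T0 (n : ℕ) (L Lam : Module.End K V) (ι : V →ₗ[K] U) (b : ℕ) : V →ₗ[K] U :=
  ι ∘ₗ (stepOp n L Lam ^ b)

lemma T0_comm (h : LSec gr gr' r j L M ι γ) {Lam : Module.End K V}
    (hLam : IsLam gr (r + j) L Lam) {b : ℕ} (hb : b + 1 ≤ j) :
    mixOp L M (-1) (T0 (r + j) L Lam ι (b + 1)) =
      ((b + 1 : ℕ) : K) • T0 (r + j) L Lam ι b := by
  apply LinearMap.ext
  intro x
  refine lef_induction' h.int h.hL h.bd h.hl (p := fun x =>
    mixOp L M (-1) (T0 (r + j) L Lam ι (b + 1)) x =
      (((b + 1 : ℕ) : K) • T0 (r + j) L Lam ι b) x) ?_ ?_ x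
  · intro a b ha hb; rw [map_add, map_add, ha, hb]
  · intro i hi a ha hp t
    simp only [mixOp_apply, LinearMap.add_apply, LinearMap.comp_apply, LinearMap.smul_apply,
      neg_smul, one_smul, T0, LinearMap.neg_apply]
    rw [← h.ιL]
    by_cases ht : t ≤ r + j - i
    · rw [step_pow hLam hi ha hp ht, step_pow hLam hi ha hp ht]
      by_cases ht' : t + 1 ≤ r + j - i
      · have key : ((t + 1).descFactorial (b + 1) : K) • (L ^ (t + 1 - (b + 1))) a -
            L ((t.descFactorial (b + 1) : K) • (L ^ (t - (b + 1))) a) =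
            ((b + 1 : ℕ) : K) • ((t.descFactorial b : K) • (L ^ (t - b)) a) := by
          rw [map_smul, show t + 1 - (b + 1) = t - b by omega]
          by_cases hbt : b + 1 ≤ t
          · rw [← Module.End.mul_apply L, ← pow_succ', show t - (b + 1) + 1 = t - b by omega,
              ← sub_smul, smul_smul]
            congr 1
            rw [desc_ident]
            push_cast
            ring
          · rw [Nat.descFactorial_of_lt (show t < b + 1 by omega), Nat.cast_zero, zero_smul,
              sub_zero, smul_smul]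
            congr 1
            rw [desc_ident, Nat.descFactorial_of_lt (show t < b + 1 by omega)]
            push_cast
            ring
        rw [← Module.End.mul_apply L, ← pow_succ', step_pow hLam hi ha hp ht', ← sub_eq_add_neg,
          ← map_sub, key, map_smul]
      · have h1 : L ((L ^ t) a) = 0 := by
          rw [← Module.End.mul_apply L, ← pow_succ']
          exact L_pow_gt hp (by omega)
        rw [h1, map_zero, map_zero, zero_add, map_smul, map_smul, map_smul]
        have h2 : (t.descFactorial (b + 1) : K) • ι (L ((L ^ (t - (b + 1))) a)) = 0 := by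
          by_cases hbt : b + 1 ≤ t
          · rw [← Module.End.mul_apply L, ← pow_succ', h.ι_string hi ha hp (by omega), smul_zero]
          · rw [Nat.descFactorial_of_lt (by omega), Nat.cast_zero, zero_smul]
        have h3 : (t.descFactorial b : K) • ι ((L ^ (t - b)) a) = 0 := by
          by_cases hbt : b ≤ t
          · rw [h.ι_string hi ha hp (by omega), smul_zero]
          · rw [Nat.descFactorial_of_lt (by omega), Nat.cast_zero, zero_smul]
        rw [h2, h3, neg_zero, smul_zero]
    · rw [L_pow_gt hp (by omega)]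
      simp

lemma T0_zero (h : LSec gr gr' r j L M ι γ) {Lam : Module.End K V} :
    mixOp L M (-1) (T0 (r + j) L Lam ι 0) = 0 := by
  apply LinearMap.ext
  intro x
  simp [mixOp_apply, T0, h.ιL]

lemma T0_pow (h : LSec gr gr' r j L M ι γ) {Lam : Module.End K V}
    (hLam : IsLam gr (r + j) L Lam) : ∀ {b : ℕ}, b ≤ j →
    (mixOp L M (-1) ^ b) (T0 (r + j) L Lam ι b) = (b.factorial : K) • ι := by
  intro b
  induction b with
  | zero =>
    intro _
    apply LinearMap.ext
    intro x
    simp [T0]
  | succ b ih =>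
    intro hb
    rw [pow_succ, Module.End.mul_apply, T0_comm h hLam hb, map_smul, ih (by omega), smul_smul,
      Nat.factorial_succ]
    push_cast
    rfl

/-- **Uniqueness.** -/
lemma mix_pow_inj [CharZero K] [Module.Finite K V] [Module.Finite K U]
    (h : LSec gr gr' r j L M ι γ) {φ : V →ₗ[K] U}
    (hφ : ∀ i : ℤ, ∀ a ∈ grZ gr i, φ a ∈ grZ gr' (i + 2 * (-j)))
    (h0 : (mixOp L M (-1) ^ j) φ = 0) : φ = 0 := by
  obtain ⟨f, t, -, -⟩ := exists_sl2 h.int h.hL h.bd h.hl
  obtain ⟨f', t', -, -⟩ := exists_sl2 h.int' h.hM h.bd' h.hl'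
  have t'' : Sl2 (wt h.int' r) (-M) (-f') := by
    constructor
    · rw [← t'.ef]; noncomm_ring
    · have := t'.he
      calc wt h.int' r * -M - -M * wt h.int' r = -(wt h.int' r * M - M * wt h.int' r) := by
            noncomm_ring
        _ = 2 * -M := by rw [this]; noncomm_ring
    · have := t'.hf
      calc wt h.int' r * -f' - -f' * wt h.int' r =
            -(wt h.int' r * f' - f' * wt h.int' r) := by noncomm_ring
        _ = -(2 * -f') := by rw [this]; noncomm_ring
  have hmix : mixOp L (-M) 1 = mixOp L M (-1) := by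
    apply LinearMap.ext
    intro φ
    apply LinearMap.ext
    intro x
    simp [mixOp_apply]
  have tm := sl2_mix t t''
  rw [hmix] at tm
  have hw : mixOp (-(wt h.int (r + j))) (wt h.int' r) 1 φ = -((j : ℕ) : K) • φ := by
    apply gr_ext h.int
    intro i a ha
    have h1 := hφ i a (by rw [grZ_natCast]; exact ha)
    simp only [mixOp_apply, LinearMap.add_apply, LinearMap.comp_apply, one_smul,
      LinearMap.neg_apply, LinearMap.smul_apply, map_neg]
    rw [wt, scal_apply _ _ ha, map_smul]
    by_cases hj : 0 ≤ (i : ℤ) + 2 * (-j)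
    · obtain ⟨q, hq⟩ := Int.eq_ofNat_of_zero_le hj
      rw [hq, grZ_natCast] at h1
      rw [wt, scal_apply _ _ h1, ← neg_smul, ← add_smul]
      congr 1
      have h2 : (q : K) = (i : K) - 2 * (j : K) := by
        have := congrArg (fun x : ℤ => (x : K)) hq
        push_cast at this
        rw [← this]
        ring
      rw [node, node]
      push_cast
      rw [h2]
      ring
    · rw [grZ_of_neg (by omega)] at h1
      rw [(Submodule.mem_bot _).1 h1]
      simp
  by_contra hne
  exact tm.e_pow_inj hw hne le_rfl h0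

lemma T0_hom (h : LSec gr gr' r j L M ι γ) {Lam : Module.End K V} (hLh : IsHom gr (-2) Lam)
    (b : ℕ) : ∀ i : ℤ, ∀ a ∈ grZ gr i, T0 (r + j) L Lam ι b a ∈ grZ gr' (i + 2 * (-b)) := by
  intro i a ha
  have h1 : IsHom gr (-2) (stepOp (r + j) L Lam) := by
    have h2 : IsHom gr 0 (∑ s ∈ range (r + j), L ^ (s + 1) * Lam ^ (s + 1)) := by
      apply IsHom.sum
      intro s _
      have := (h.hL.pow (s + 1)).mul (hLh.pow (s + 1))
      rwa [show ((s + 1 : ℕ) : ℤ) * 2 + ((s + 1 : ℕ) : ℤ) * (-2) = 0 by ring] at this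
    have := hLh.mul h2
    rwa [add_zero] at this
  have h3 := (h1.pow b) i a ha
  rw [show (b : ℤ) * (-2) = 2 * (-b) by ring] at h3
  change ι (((stepOp (r + j) L Lam) ^ b) a) ∈ _
  by_cases hi : 0 ≤ i + 2 * (-(b : ℤ))
  · obtain ⟨q, hq⟩ := Int.eq_ofNat_of_zero_le hi
    rw [hq, grZ_natCast] at h3 ⊢
    exact h.hι q _ h3
  · rw [grZ_of_neg (by omega)] at h3 ⊢
    rw [(Submodule.mem_bot _).1 h3, map_zero]
    exact Submodule.zero_mem _

/-- **The solution of `(ad)^j T = ι`.** -/
theorem T_eq [CharZero K] [Module.Finite K V] [Module.Finite K U]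
    (h : LSec gr gr' r j L M ι γ) {Lam : Module.End K V} (hLam : IsLam gr (r + j) L Lam)
    (hLh : IsHom gr (-2) Lam) {T : V →ₗ[K] U}
    (hT : ∀ i : ℤ, ∀ a ∈ grZ gr i, T a ∈ grZ gr' (i + 2 * (-j)))
    (hTι : (mixOp L M (-1) ^ j) T = ι) :
    T = ((j.factorial : K))⁻¹ • T0 (r + j) L Lam ι j := by
  rw [← sub_eq_zero]
  have hf : (j.factorial : K) ≠ 0 := by exact_mod_cast j.factorial_ne_zero
  apply mix_pow_inj h
  · intro i a ha
    rw [LinearMap.sub_apply, LinearMap.smul_apply]
    exact Submodule.sub_mem _ (hT i a ha) (Submodule.smul_mem _ _ (T0_hom h hLh j i a ha))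
  · rw [map_sub, map_smul, hTι, T0_pow h hLam le_rfl, smul_smul, inv_mul_cancel₀ hf, one_smul,
      sub_self]

/-- The values of the solution on the strings. -/
lemma T_string [CharZero K] {T : V →ₗ[K] U} {Lam : Module.End K V}
    (hLam : IsLam gr (r + j) L Lam)
    (hT : T = ((j.factorial : K))⁻¹ • T0 (r + j) L Lam ι j) {i : ℕ} (hi : i ≤ r + j) {a : V}
    (ha : a ∈ gr i) (hp : (L ^ (r + j - i + 1)) a = 0) {s : ℕ} (hs : s ≤ r + j - i) :
    T ((L ^ s) a) = (s.choose j : K) • ι ((L ^ (s - j)) a) := by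
  have hf : (j.factorial : K) ≠ 0 := by exact_mod_cast j.factorial_ne_zero
  rw [hT, LinearMap.smul_apply, T0, LinearMap.comp_apply, step_pow hLam hi ha hp hs, map_smul,
    smul_smul, Nat.descFactorial_eq_factorial_mul_choose]
  push_cast
  rw [← mul_assoc, inv_mul_cancel₀ hf, one_mul]

end Pool.Agent.N190.Lin
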