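import Pool.Agent.N190.Lin.Desc

/-!
# From the conjecture B in the degrees up to `r` to the divisibility of the graph
-/

set_option autoImplicit false

open CategoryTheory AlgebraicGeometry Finset Polynomial

universe u v

namespace Pool.Agent.N190.Lin

open Pool.Agent.H914 Pool.Agent.H447 Pool.Agent.W534 Pool.Agent.W537

section Abs

/-- the coefficients -/
def cc (j a b : ℕ) : ℚ :=
  if a = 0 ∨ b = 0 then ((b + j).choose j : ℚ)
  else ((b + j).choose j : ℚ) - ((b - 1 + j).choose j : ℚ)

lemma sum_cc (j : ℕ) : ∀ A B : ℕ, (∑ a ∈ range (A + 1), ∑ b ∈ range (B + 1),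
    if a + B = b + A then cc j a b else 0) = ((B + j).choose j : ℚ) := by
  intro A
  induction A with
  | zero =>
    intro B
    rw [zero_add, Finset.sum_range_one, Finset.sum_eq_single B]
    · rw [if_pos (by ring), cc, if_pos (Or.inl rfl)]
    · intro b _ hb
      rw [if_neg (by omega)]
    · intro h; exact absurd (Finset.mem_range.2 (by omega)) h
  | succ A ih =>
    intro B
    rcases B with _ | B
    · rw [Finset.sum_eq_single (A + 1)]
      · rw [zero_add, Finset.sum_range_one, if_pos (by ring), cc, if_pos (Or.inr rfl)]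
      · intro a _ ha
        rw [zero_add, Finset.sum_range_one, if_neg (by omega)]
      · intro h; exact absurd (Finset.mem_range.2 (by omega)) h
    · rw [Finset.sum_range_succ]
      have e1 : ∀ a ∈ range (A + 1), (∑ b ∈ range (B + 1 + 1),
          if a + (B + 1) = b + (A + 1) then cc j a b else 0) =
          ∑ b ∈ range (B + 1), if a + B = b + A then cc j a b else 0 := by
        intro a ha
        rw [Finset.mem_range] at ha
        rw [Finset.sum_range_succ, if_neg (by omega), add_zero]
        refine Finset.sum_congr rfl fun b _ => ?_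
        by_cases h : a + B = b + A
        · rw [if_pos h, if_pos (by omega)]
        · rw [if_neg h, if_neg (by omega)]
      rw [Finset.sum_congr rfl e1, ih B, Finset.sum_eq_single (B + 1)]
      · rw [if_pos (by ring), cc, if_neg (by omega), Nat.add_sub_cancel]
        ring
      · intro b _ hb
        rw [if_neg (by omega)]
      · intro h; exact absurd (Finset.mem_range.2 (by omega)) h

variable {K : Type*} [Field K] [CharZero K] {V U : Type*} [AddCommGroup V] [Module K V]
  [AddCommGroup U] [Module K U] {gr : ℕ → Submodule K V} {gr' : ℕ → Submodule K U} {r j : ℕ}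
  {L : Module.End K V} {M : Module.End K U} {ι : V →ₗ[K] U} {γ : U →ₗ[K] V}

/-- The operator of degree `- 2 j` built from the inverses in the degrees up to `r`. -/
noncomputable def Phi (r j : ℕ) (L : Module.End K V) (F : ℕ → Module.End K V) : Module.End K V :=
  ∑ a ∈ range (r + 1), ∑ b ∈ range (r + 1 - a), (cc j a b : K) • (L ^ b * F (r - a - b) * L ^ a)

omit [CharZero K] in
/-- the terms of the operator on the strings -/
lemma term_string (h : LSec gr gr' r j L M ι γ) {F : ℕ → Module.End K V}
    (hF : ∀ l ≤ r, IsInv gr (r + j) L (r + j - l) (F l)) {a b : ℕ} (hab : a + b ≤ r) {p : ℕ}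
    (hp : p ≤ r + j) {x : V} (hx : x ∈ gr p) (hpx : (L ^ (r + j - p + 1)) x = 0) {s : ℕ}
    (hs : s ≤ r + j - p) :
    (L ^ b * F (r - a - b) * L ^ a) ((L ^ s) x) =
      if a + (s - j) = b + (r + j - p - s) ∧ a ≤ r + j - p - s ∧ j ≤ s then (L ^ (s - j)) x
      else 0 := by
  rw [Module.End.mul_apply, Module.End.mul_apply, ← Module.End.mul_apply (L ^ a), ← pow_add]
  have hl := hF (r - a - b) (by omega)
  by_cases hd : p + 2 * (a + s) = 2 * (r + j) - (r - a - b)
  · by_cases hN : a + s ≤ r + j - p
    · have h1 : (L ^ (a + s)) x =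
          (L ^ (r + j - (r - a - b))) ((L ^ (a + s - (r + j - (r - a - b)))) x) := by
        rw [← Module.End.mul_apply, ← pow_add]
        congr 2
        omega
      rw [h1, hl.1 _ (by
        have := pow_L_mem h.hL hx (a + s - (r + j - (r - a - b)))
        rwa [show p + 2 * (a + s - (r + j - (r - a - b))) =
          r + j - (r + j - (r - a - b)) by omega] at this),
        ← Module.End.mul_apply (L ^ b), ← pow_add, if_pos ⟨by omega, by omega, by omega⟩]
      congr 2
      omega
    · rw [L_pow_gt hpx (by omega), map_zero, map_zero, if_neg (by omega)]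
  · rw [hl.2 (p + 2 * (a + s)) (by omega) _ (pow_L_mem h.hL hx _), map_zero, if_neg (by omega)]

/-- the restriction of the operator on the strings -/
lemma phi_string (h : LSec gr gr' r j L M ι γ) {F : ℕ → Module.End K V}
    (hF : ∀ l ≤ r, IsInv gr (r + j) L (r + j - l) (F l)) {p : ℕ}
    (hp : p ≤ r + j) {x : V} (hx : x ∈ gr p) (hpx : (L ^ (r + j - p + 1)) x = 0) {s : ℕ}
    (hs : s ≤ r + j - p) :
    Phi r j L F ((L ^ s) x) = (s.choose j : K) • (L ^ (s - j)) x := by
  have e1 : Phi r j L F ((L ^ s) x) = ∑ a ∈ range (r + 1), ∑ b ∈ range (r + 1 - a),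
      ((if a + (s - j) = b + (r + j - p - s) ∧ a ≤ r + j - p - s ∧ j ≤ s then cc j a b
        else 0 : ℚ) : K) • (L ^ (s - j)) x := by
    rw [Phi, LinearMap.sum_apply]
    refine Finset.sum_congr rfl fun a ha => ?_
    rw [LinearMap.sum_apply]
    refine Finset.sum_congr rfl fun b hb => ?_
    rw [Finset.mem_range] at ha hb
    rw [LinearMap.smul_apply, term_string h hF (by omega) hp hx hpx hs]
    split_ifs
    · rfl
    · rw [smul_zero, Rat.cast_zero, zero_smul]
  rw [e1]
  simp only [← Finset.sum_smul, ← Rat.cast_sum]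
  by_cases hjs : j ≤ s
  · have e2 : (∑ a ∈ range (r + 1), ∑ b ∈ range (r + 1 - a),
        if a + (s - j) = b + (r + j - p - s) ∧ a ≤ r + j - p - s ∧ j ≤ s then cc j a b else 0) =
        ((s - j + j).choose j : ℚ) := by
      rw [← sum_cc j (r + j - p - s) (s - j)]
      symm
      have e3 : ∀ a ∈ range (r + 1), a ∉ range (r + j - p - s + 1) →
          (∑ b ∈ range (r + 1 - a), if a + (s - j) = b + (r + j - p - s) ∧
            a ≤ r + j - p - s ∧ j ≤ s then cc j a b else 0) = 0 := by
        intro a _ ha
        rw [Finset.mem_range] at ha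
        exact Finset.sum_eq_zero fun b _ => if_neg (by omega)
      rw [← Finset.sum_subset (Finset.range_subset_range.2 (by omega)) e3]
      refine Finset.sum_congr rfl fun a ha => ?_
      rw [Finset.mem_range] at ha
      have e4 : ∀ b ∈ range (r + 1 - a), b ∉ range (s - j + 1) →
          (if a + (s - j) = b + (r + j - p - s) ∧ a ≤ r + j - p - s ∧ j ≤ s then cc j a b
            else 0) = 0 := by
        intro b _ hb
        rw [Finset.mem_range] at hb
        exact if_neg (by omega)
      rw [← Finset.sum_subset (Finset.range_subset_range.2 (by omega)) e4]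
      refine Finset.sum_congr rfl fun b hb => ?_
      by_cases hc : a + (s - j) = b + (r + j - p - s)
      · rw [if_pos hc, if_pos ⟨hc, by omega, hjs⟩]
      · rw [if_neg hc, if_neg (by tauto)]
    rw [e2, Nat.sub_add_cancel hjs, Rat.cast_natCast]
  · have e2 : (∑ a ∈ range (r + 1), ∑ b ∈ range (r + 1 - a),
        if a + (s - j) = b + (r + j - p - s) ∧ a ≤ r + j - p - s ∧ j ≤ s then cc j a b else 0) =
        0 :=
      Finset.sum_eq_zero fun a _ => Finset.sum_eq_zero fun b _ => if_neg (by omega)
    rw [e2, Nat.choose_eq_zero_of_lt (by omega), Rat.cast_zero, Nat.cast_zero]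

/-- **The operator solves the equation.** -/
theorem phi_solves [Module.Finite K V] (h : LSec gr gr' r j L M ι γ) {F : ℕ → Module.End K V}
    (hF : ∀ l ≤ r, IsInv gr (r + j) L (r + j - l) (F l)) :
    (mixOp L M (-1) ^ j) (ι ∘ₗ Phi r j L F) = ι := by
  obtain ⟨Lam, -, hLam⟩ := exists_isLam h.int h.hL h.bd h.hl
  have hf : (j.factorial : K) ≠ 0 := by exact_mod_cast j.factorial_ne_zero
  have e1 : ι ∘ₗ Phi r j L F = ((j.factorial : K))⁻¹ • T0 (r + j) L Lam ι j := by
    apply LinearMap.ext
    intro x
    refine lef_induction' h.int h.hL h.bd h.hl (p := fun x => (ι ∘ₗ Phi r j L F) x =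
      (((j.factorial : K))⁻¹ • T0 (r + j) L Lam ι j) x) ?_ ?_ x
    · intro a b ha hb; rw [map_add, map_add, ha, hb]
    · intro p hp x hx hpx s
      by_cases hs : s ≤ r + j - p
      · rw [LinearMap.comp_apply, phi_string h hF hp hx hpx hs, map_smul,
          T_string hLam rfl hp hx hpx hs]
      · rw [L_pow_gt hpx (by omega), map_zero, map_zero]
  rw [e1, map_smul, T0_pow h hLam le_rfl, smul_smul, inv_mul_cancel₀ hf, one_smul]

end Abs

open VarClass Obj WeilCohomology

variable {k : Type u} [Field k] {𝒱 : VarClass k} {ops : CycleOps 𝒱}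
  {W : WeilCohomology.{u, v} ops} {X Y : 𝒱.Obj} {D : X.Cycles} {i : Y ⟶ X}

/-- **One quotient of the graph for all theories.** -/
theorem exists_quotient (hD : X.IsCyc 1 D) {d : ℕ} (hd : d ≤ X.dim) (hY : Y.dim ≤ d)
    (W : WeilCohomology.{u, v} ops) (hW : BUpTo W X D d) (i : Y ⟶ X) :
    ∃ z : (X.prod Y).Cycles, ∀ W' : WeilCohomology.{u, v} ops,
      (∀ l ≤ d, W'.betti X l ≤ W.betti X l) → HardLefschetz W' X D →
        IsLinearSection W' D i → IsGraphQuotient W' D i z := by
  obtain ⟨F, hF, hF'⟩ := exists_system hD hd W hW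
  have hn : Y.dim + (X.dim - Y.dim) = X.dim := by omega
  have hL : Realized.{u, v} ops X 1 (LL D) := (Realized.mulLeft hD).cast Nat.cast_one
  have hPhi : Realized ops X (-((X.dim - Y.dim : ℕ) : ℤ))
      (fun W => Phi Y.dim (X.dim - Y.dim) (LL D W) (fun l => F l W)) := by
    have e1 : (fun W : WeilCohomology.{u, v} ops =>
        Phi Y.dim (X.dim - Y.dim) (LL D W) (fun l => F l W)) = fun W =>
        ∑ a ∈ range (Y.dim + 1), ∑ b ∈ range (Y.dim + 1 - a),
          (cc (X.dim - Y.dim) a b : W.K) • (LL D W ^ b * F (Y.dim - a - b) W * LL D W ^ a) := rfl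
    rw [e1]
    refine Realized.sum fun a ha => Realized.sum fun b hb => ?_
    rw [Finset.mem_range] at ha hb
    refine Realized.smul _ ?_
    exact (((hL.pow b).mul (hF (Y.dim - a - b) (by omega))).mul (hL.pow a)).cast (by
      push_cast [show Y.dim - a - b ≤ X.dim by omega, show Y.dim ≤ X.dim by omega,
        show a ≤ Y.dim by omega, show b ≤ Y.dim - a by omega]
      ring)
  obtain ⟨z, hz, hzW⟩ := cyc_of_realized (by omega) hPhi
  have hg : (X.prod Y).IsCyc X.dim (ops.push (Obj.lift i (𝟙 Y)) Y.V.fundCycle) :=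
    ops.push_mem _ Y.V.fundCycle_mem (by rw [dim_prod, zero_add])
  refine ⟨compCyc ops z (ops.push (Obj.lift i (𝟙 Y)) Y.V.fundCycle), fun W' hb hHL hs =>
    ⟨compCyc_mem hz hg (by ring), ?_⟩⟩
  have key : ∀ l ≤ d, IsInv (W'.gr X) X.dim (LL D W') (X.dim - l) (F l W') := by
    intro l
    induction l using Nat.strong_induction_on with
    | _ l ih =>
      intro hl
      exact (hF' W' l hl (fun q hq => ih q hq (by omega))).2 (hb l hl)
  have h := hs.lsec hD hHL
  have hsol := phi_solves h (F := fun l => F l W') (fun l hl => by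
    rw [hn]
    exact key l (by omega))
  rw [← sub_eq_zero]
  apply corr_inj
  rw [corr_sub'', corr_mixDiff_pow hD, corr_compCyc W' hg, corr_graph, ← hzW W', sub_eq_zero]
  exact hsol

end Pool.Agent.N190.Lin
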