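import Pool.Agent.W534.HDefs
import Pool.Agent.W537.OneCycleDefs

/-!
# Linear sections of arbitrary codimension: definitions
-/

set_option autoImplicit false

open CategoryTheory AlgebraicGeometry

universe u v

namespace Pool.Agent.N190.Lin

open Pool.Agent.H914 Pool.Agent.W534 Pool.Agent.W537 VarClass Obj WeilCohomology

variable {k : Type u} [Field k] {𝒱 : VarClass k} {ops : CycleOps 𝒱}

/-- The morphism `i` from `Y` to `X` looks like the inclusion of a smooth linear section of
codimension `j = dim X - dim Y`: `i_* [Y]` has the same class as `D ^ j`, and `i` satisfies the weak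
Lefschetz theorem. -/
structure IsLinearSection (W : WeilCohomology.{u, v} ops) {X Y : 𝒱.Obj} (D : X.Cycles)
    (i : Y ⟶ X) : Prop where
  le : Y.dim ≤ X.dim
  cls : W.cl X (ops.push i Y.V.fundCycle) = W.cl X D ^ (X.dim - Y.dim)
  weak : WeakLefschetz W i

/-- The cycle `z` of codimension `dim Y` on `X × Y` is a quotient of the transposed graph of
`i : Y ⟶ X` by the power `j = dim X - dim Y` of the divisor `D × Y - X × i^* D`: the product of
`z` and this power has the same class as the image of `Y` under `(i, id)`. -/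
def IsGraphQuotient (W : WeilCohomology.{u, v} ops) {X Y : 𝒱.Obj} (D : X.Cycles) (i : Y ⟶ X)
    (z : (X.prod Y).Cycles) : Prop :=
  (X.prod Y).IsCyc Y.dim z ∧
    W.cl (X.prod Y) (mixDiff ops i D) ^ (X.dim - Y.dim) * W.cl (X.prod Y) z =
      W.cl (X.prod Y) (ops.push (Obj.lift i (𝟙 Y)) Y.V.fundCycle)

/-- The same as `IsGraphQuotient` for a `K`-linear combination of classes of cycles. -/
def GraphInSpan (W : WeilCohomology.{u, v} ops) {X Y : 𝒱.Obj} (D : X.Cycles) (i : Y ⟶ X) :
    Prop :=
  ∃ c ∈ spanCycles W (X.prod Y) Y.dim,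
    W.cl (X.prod Y) (mixDiff ops i D) ^ (X.dim - Y.dim) * c =
      W.cl (X.prod Y) (ops.push (Obj.lift i (𝟙 Y)) Y.V.fundCycle)

/-- The conjecture B for the degrees at most `d`: for all `i ≤ d` the inverse of the map
`ξ ^ (n - i) : H^i(X) → H^(2n - i)(X)`, where `n = dim X` and `ξ` is the class of `D`, is induced by
an algebraic cycle. -/
def BUpTo (W : WeilCohomology.{u, v} ops) (X : 𝒱.Obj) (D : X.Cycles) (d : ℕ) : Prop :=
  ∀ i ≤ d, ∃ z, InvertsLefschetz W X D i z

end Pool.Agent.N190.Lin
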