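import Pool.Agent.N190.Lin.One

/-!
# Descent of the coefficients, degree by degree
-/

set_option autoImplicit false

open CategoryTheory AlgebraicGeometry Finset Polynomial

universe u v

namespace Pool.Agent.N190.Lin

open Pool.Agent.H914 Pool.Agent.H447 Pool.Agent.W534 Pool.Agent.W537

section Abs

variable {K : Type*} [Field K] [CharZero K] {V : Type*} [AddCommGroup V] [Module K V]
  {gr : ℕ → Submodule K V} {n m : ℕ} {L : Module.End K V} {R : ℤ → Module.End K V → Prop}

/-- the lower truncation -/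
lemma low_trunc (hL : IsHom gr 2 L) {F : ℕ → Module.End K V} (hm : m ≤ n)
    (hFi : ∀ l < m, IsInv gr n L (n - l) (F l)) {q : ℕ} {a : V} (ha : a ∈ gr q) :
    (1 - ∑ l ∈ range m, F l * L ^ (n - l)) a = if q < m then 0 else a := by
  rw [LinearMap.sub_apply, Module.End.one_apply, LinearMap.sum_apply]
  have h1 : ∀ l ∈ range m, (F l * L ^ (n - l)) a = if l = q then a else 0 := by
    intro l hl
    rw [Finset.mem_range] at hl
    rw [Module.End.mul_apply]
    split_ifs with h
    · subst h
      exact (hFi l hl).1 a (by rwa [show n - (n - l) = l by omega])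
    · exact (hFi l hl).2 (q + 2 * (n - l)) (by omega) _ (pow_L_mem hL ha _)
  rw [Finset.sum_congr rfl h1, Finset.sum_ite_eq' (range m) q (fun _ => a)]
  simp only [Finset.mem_range]
  split_ifs <;> simp

/-- the upper truncation -/
lemma up_trunc (hL : IsHom gr 2 L) (hHL : HardLef gr n L) {F : ℕ → Module.End K V} (hm : m ≤ n)
    (hFi : ∀ l < m, IsInv gr n L (n - l) (F l)) {q : ℕ} (hq : q ≤ 2 * n) {a : V}
    (ha : a ∈ gr q) :
    (1 - ∑ l ∈ range m, L ^ (n - l) * F l) a = if 2 * n - m < q then 0 else a := by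
  rw [LinearMap.sub_apply, Module.End.one_apply, LinearMap.sum_apply]
  have h1 : ∀ l ∈ range m, (L ^ (n - l) * F l) a = if l = 2 * n - q then a else 0 := by
    intro l hl
    rw [Finset.mem_range] at hl
    rw [Module.End.mul_apply]
    split_ifs with h
    · obtain ⟨b, hb, rfl⟩ := (hHL l (by omega)).2 a (by rwa [show 2 * n - l = q by omega])
      rw [(hFi l hl).1 b (by rwa [show n - (n - l) = l by omega])]
    · rw [(hFi l hl).2 q (by omega) _ ha, map_zero]
  rw [Finset.sum_congr rfl h1, Finset.sum_ite_eq' (range m) (2 * n - q) (fun _ => a)]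
  simp only [Finset.mem_range]
  by_cases h : 2 * n - m < q
  · rw [if_pos (by omega), if_pos h, sub_self]
  · rw [if_neg (by omega), if_neg h, sub_zero]

/-- the support of a truncated operator of degree `- (n - m)` -/
lemma trunc_supp (hbd : ∀ i, 2 * n + 1 ≤ i → gr i = ⊥) (hL : IsHom gr 2 L)
    (hHL : HardLef gr n L) {F : ℕ → Module.End K V} (hm : m ≤ n)
    (hFi : ∀ l < m, IsInv gr n L (n - l) (F l)) {w : Module.End K V}
    (hw : IsHom gr (2 * (-((n - m : ℕ) : ℤ))) w) {q : ℕ} (hq : q ≠ n + (n - m)) {a : V}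
    (ha : a ∈ gr q) :
    (1 - ∑ l ∈ range m, F l * L ^ (n - l))
      (w ((1 - ∑ l ∈ range m, L ^ (n - l) * F l) a)) = 0 := by
  by_cases h1 : 2 * n < q
  · rw [hbd q (by omega)] at ha
    rw [(Submodule.mem_bot _).1 ha, map_zero, map_zero, map_zero]
  rw [up_trunc hL hHL hm hFi (by omega) ha]
  split_ifs with h2
  · rw [map_zero, map_zero]
  · have h3 := hw q a (by rw [grZ_natCast]; exact ha)
    by_cases h4 : 2 * (n - m) ≤ q
    · rw [show (q : ℤ) + 2 * -((n - m : ℕ) : ℤ) = ((q - 2 * (n - m) : ℕ) : ℤ) by omega,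
        grZ_natCast] at h3
      rw [low_trunc hL hm hFi h3, if_pos (by omega)]
    · rw [grZ_of_neg (by omega)] at h3
      rw [(Submodule.mem_bot _).1 h3, map_zero]

/-- **The step of the descent.** -/
theorem desc_step [Module.Finite K V] (hR : OpAlg gr R) (h : DirectSum.IsInternal gr)
    (hbd : ∀ i, 2 * n + 1 ≤ i → gr i = ⊥)
    (hstr : ∀ y, R 0 y → ∃ q : ℚ, LinearMap.trace K V (par h * y) = q)
    (hL : R 1 L) (hHL : HardLef gr n L) (hm : m ≤ n) {F : ℕ → Module.End K V}
    (hF : ∀ l < m, R (-((n - l : ℕ) : ℤ)) (F l)) (hFi : ∀ l < m, IsInv gr n L (n - l) (F l))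
    {θ : Module.End K V} (hθ : θ ∈ KS R (-((n - m : ℕ) : ℤ)))
    (hθi : ∀ a ∈ gr m, θ ((L ^ (n - m)) a) = a) :
    ∃ Θ, R (-((n - m : ℕ) : ℤ)) Θ ∧ ∀ a ∈ gr m, Θ ((L ^ (n - m)) a) = a := by
  obtain ⟨ret, hret⟩ := exists_retract K
  have hLh : IsHom gr 2 L := by simpa using hR.hom hL
  obtain ⟨w, hwR, hw⟩ := hR.exists_twist h hstr (ret := ret) hθ
  set c := n - m with hc
  set A : Module.End K V := 1 - ∑ l ∈ range m, F l * L ^ (n - l) with hA
  set B : Module.End K V := 1 - ∑ l ∈ range m, L ^ (n - l) * F l with hB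
  have hAR : R 0 A := hR.sub hR.one (hR.sum fun l hl =>
    hR.cast (hR.mul (hF l (Finset.mem_range.1 hl)) (hR.pow hL (n - l))) (by ring))
  have hBR : R 0 B := hR.sub hR.one (hR.sum fun l hl =>
    hR.cast (hR.mul (hR.pow hL (n - l)) (hF l (Finset.mem_range.1 hl))) (by ring))
  have hLc : R c (L ^ c) := hR.cast (hR.pow hL c) (by ring)
  set T : Module.End K V := A * w * B with hT
  have hTR : R (-(c : ℤ)) T := hR.cast (hR.mul (hR.mul hAR hwR) hBR) (by ring)
  set G : Module.End K V := T * L ^ c with hG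
  have hGR : R 0 G := hR.cast (hR.mul hTR hLc) (by ring)
  have hmem : ∀ a ∈ gr m, (L ^ c) a ∈ gr (n + c) := by
    intro a ha
    have := pow_L_mem hLh ha c
    rwa [show m + 2 * c = n + c by omega] at this
  -- the support of `G`
  have hGs : G * proj h m = G := by
    apply gr_ext h
    intro q a ha
    rw [Module.End.mul_apply]
    by_cases hq : q = m
    · subst hq; rw [proj_same h ha]
    · rw [proj_ne h ha hq, map_zero]
      change 0 = A (w (B ((L ^ c) a)))
      rw [trunc_supp hbd hLh hHL hm hFi (hR.hom hwR) (by omega) (pow_L_mem hLh ha c)]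
  have hG0 : IsHom gr 0 G := by simpa using hR.hom hGR
  have hGs' : proj h m * G = G := by rw [hG0.proj_comm, hGs]
  -- the operator with the inverse
  have hθP : A * θ * B * L ^ c = proj h m := by
    apply gr_ext h
    intro q a ha
    by_cases hq : q = m
    · subst hq
      rw [proj_same h ha]
      change A (θ (B ((L ^ c) a))) = a
      have e1 : B ((L ^ c) a) = (L ^ c) a := by
        rw [hB, up_trunc hLh hHL hm hFi (by omega) (hmem a ha), if_neg (by omega)]
      rw [e1, hθi a ha, hA, low_trunc hLh hm hFi ha, if_neg (by omega)]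
    · rw [proj_ne h ha hq]
      change A (θ (B ((L ^ c) a))) = 0
      exact trunc_supp hbd hLh hHL hm hFi (hR.kspan.hom hθ) (by omega) (pow_L_mem hLh ha c)
  have hpar : par h * proj h m = (-1 : K) ^ m • proj h m := by
    apply LinearMap.ext
    intro a
    rw [Module.End.mul_apply, par, scal_apply h _ (H914.proj_mem h m a), LinearMap.smul_apply]
  have hstrP : LinearMap.trace K V (par h * proj h m) =
      (((-1) ^ m * (Module.finrank K (gr m) : ℚ) : ℚ) : K) := by
    rw [hpar, map_smul, trace_proj, smul_eq_mul]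
    push_cast
    rfl
  -- the super traces of the powers of `G`
  have hstrG : ∀ k : ℕ, LinearMap.trace K V (par h * G ^ (k + 1)) =
      (((-1) ^ m * (Module.finrank K (gr m) : ℚ) : ℚ) : K) := by
    intro k
    induction k with
    | zero =>
      rw [zero_add, pow_one]
      have e1 : G = A * (w * (B * L ^ c)) := by rw [hG, hT]; simp only [mul_assoc]
      rw [e1, str_comm h (hR.hom hAR), mul_assoc w, hw _ (hR.cast (hR.mul
        (hR.mul hBR hLc) hAR) (by ring))]
      have e2 : LinearMap.trace K V (par h * (θ * (B * L ^ c * A))) =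
          LinearMap.trace K V (par h * proj h m) := by
        rw [← mul_assoc θ, ← str_comm h (hR.hom hAR), ← hθP]
        simp only [mul_assoc]
      rw [e2, hstrP, ret_ratCast hret]
    | succ k ih =>
      have e1 : G ^ (k + 1 + 1) = A * (w * (B * L ^ c * G ^ (k + 1))) := by
        rw [pow_succ', hG, hT]; simp only [mul_assoc]
      have hGk : R 0 (G ^ (k + 1)) := hR.cast (hR.pow hGR (k + 1)) (by ring)
      rw [e1, str_comm h (hR.hom hAR), mul_assoc w, hw _ (hR.cast (hR.mul (hR.mul
        (hR.mul hBR hLc) hGk) hAR) (by ring))]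
      have e2 : LinearMap.trace K V (par h * (θ * (B * L ^ c * G ^ (k + 1) * A))) =
          LinearMap.trace K V (par h * G ^ (k + 1)) := by
        rw [← mul_assoc θ, ← str_comm h (hR.hom hAR)]
        have e3 : A * (θ * (B * L ^ c * G ^ (k + 1))) = G ^ (k + 1) := by
          have : A * (θ * (B * L ^ c * G ^ (k + 1))) = (A * θ * B * L ^ c) * G ^ (k + 1) := by
            simp only [mul_assoc]
          rw [this, hθP, pow_succ', ← mul_assoc, hGs']
        rw [e3]
      rw [e2, ih, ret_ratCast hret]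
  have htr : ∀ k : ℕ, LinearMap.trace K V (G ^ (k + 1)) = (Module.finrank K (gr m) : K) := by
    intro k
    have h1 := hstrG k
    have h2 : par h * G ^ (k + 1) = (-1 : K) ^ m • G ^ (k + 1) := by
      rw [pow_succ', ← hGs', mul_assoc, ← mul_assoc (par h), hpar, smul_mul_assoc]
    rw [h2, map_smul, smul_eq_mul] at h1
    push_cast at h1
    exact mul_left_cancel₀ (pow_ne_zero _ (by norm_num)) h1
  have hun := unipotent_of_trace_pow h hGs' hGs htr le_rfl
  refine ⟨(∑ k ∈ range (Module.finrank K (gr m)), (1 - G) ^ k) * T, ?_, ?_⟩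
  · refine hR.cast (hR.mul (hR.sum (d := 0) fun k _ => ?_) hTR) (zero_add _)
    exact hR.cast (hR.pow (hR.sub hR.one hGR) k) (by ring)
  · intro a ha
    exact geom_inv (hun a ha)

end Abs

open VarClass Obj WeilCohomology

variable {k : Type u} [Field k] {𝒱 : VarClass k} {ops : CycleOps 𝒱}
  {W : WeilCohomology.{u, v} ops} {X : 𝒱.Obj} {D : X.Cycles}

/-- **Descent of the coefficients in the degrees up to `d`.** -/
theorem bUpTo_of_kinv (hD : X.IsCyc 1 D) (hHL : HardLefschetz W X D) {d : ℕ} (hd : d ≤ X.dim)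
    (hK : ∀ i ≤ d, KInvIn W X D i) : BUpTo W X D d := by
  have step' : ∀ m ≤ X.dim, ∀ F : ℕ → Module.End W.K (W.H X),
      (∀ l < m, ROp W X (-((X.dim - l : ℕ) : ℤ)) (F l)) →
      (∀ l < m, IsInv (W.gr X) X.dim (LinearMap.mulLeft W.K (W.cl X D)) (X.dim - l) (F l)) →
      KInvIn W X D m → ∃ z, InvertsLefschetz W X D m z := by
    rintro m hm F hF hFi ⟨θ, hθ, hθi⟩
    obtain ⟨Θ, hΘ, hΘi⟩ := desc_step rop_opAlg (W.isInternal X) W_hbd rop_str (rop_mulLeft hD) hHL
      hm hF hFi (mem_KS_iff.2 hθ) hθi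
    obtain ⟨w, hw, hwΘ⟩ := (rop_iff.1 hΘ).exists_cyc (p := m) (by omega)
    refine ⟨w, (inverts_iff hD W hm).2 ⟨hw, fun a ha => ?_⟩⟩
    rw [hwΘ]
    rw [show X.dim - (X.dim - m) = m by omega] at ha
    exact hΘi a ha
  induction d with
  | zero =>
    intro i hi
    obtain rfl : i = 0 := by omega
    exact step' 0 (Nat.zero_le _) (fun _ => 0) (by intro l hl; omega) (by intro l hl; omega)
      (hK 0 le_rfl)
  | succ d ih =>
    have ih' := ih (by omega) (fun i hi => hK i (by omega))
    obtain ⟨F, hF, hF'⟩ := exists_system hD (d := d) (by omega) W ih'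
    have hFW : ∀ i ≤ d, IsInv (W.gr X) X.dim (LL D W) (X.dim - i) (F i W) := by
      intro i
      induction i using Nat.strong_induction_on with
      | _ i ih2 =>
        intro hi
        exact (hF' W i hi (fun l hl => ih2 l hl (by omega))).2 le_rfl
    intro i hi
    by_cases h1 : i ≤ d
    · exact ih' i h1
    · obtain rfl : i = d + 1 := by omega
      exact step' (d + 1) hd (fun l => F l W) (fun l hl => ⟨F l, hF l (by omega), rfl⟩)
        (fun l hl => hFW l (by omega)) (hK (d + 1) le_rfl)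

end Pool.Agent.N190.Lin
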