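import Pool.Agent.N190.Lin.Abs
import Pool.Agent.N190.Lin.Defs
import Pool.Agent.W537.OneCycleB

/-!
# From the divisibility of the graph of a linear section to the conjecture B in one degree
-/

set_option autoImplicit false

open CategoryTheory AlgebraicGeometry Finset Polynomial

universe u v

namespace Pool.Agent.N190.Lin

open Pool.Agent.H914 Pool.Agent.H447 Pool.Agent.W534 Pool.Agent.W537 VarClass Obj WeilCohomology

variable {k : Type u} [Field k] {𝒱 : VarClass k} {ops : CycleOps 𝒱}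
  {W : WeilCohomology.{u, v} ops} {X Y Z : 𝒱.Obj} {i : Y ⟶ X} {D : X.Cycles}

/-- The linear algebra of the linear section. -/
lemma IsLinearSection.lsec (hs : IsLinearSection W D i) (hD : X.IsCyc 1 D)
    (hHL : HardLefschetz W X D) :
    LSec (W.gr X) (W.gr Y) Y.dim (X.dim - Y.dim) (LinearMap.mulLeft W.K (W.cl X D))
      (LinearMap.mulLeft W.K (W.cl Y (ops.pull i D))) (W.map i).toLinearMap (W.push i) := by
  have hn : Y.dim + (X.dim - Y.dim) = X.dim := by have := hs.le; omega
  exact {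
    int := W.isInternal X
    int' := W.isInternal Y
    bd := fun q hq => W.gr_eq_bot X q (by omega)
    bd' := fun q hq => W.gr_eq_bot Y q (by omega)
    hL := isHom_mulLeft W hD
    hM := isHom_mulLeft W (pull_mem_one hD)
    hι := fun q a ha => W.map_mem i ha
    hγ := fun q b hb => by
      have := W.push_mem i hb
      rwa [show (q : ℤ) + 2 * ((X.dim : ℤ) - Y.dim) = ((q + 2 * (X.dim - Y.dim) : ℕ) : ℤ) by
        push_cast [hs.le]; ring, grZ_natCast] at this
    γι := fun a => by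
      have h1 := W.push_mul i 1 a
      rw [one_mul, ← W.cl_fund Y, ← W.cl_push, hs.cls] at h1
      rw [LinearMap.pow_mulLeft]
      exact h1
    ιL := fun a => by
      simp only [LinearMap.mulLeft_apply, AlgHom.toLinearMap_apply]
      rw [map_mul (W.map i), ← W.cl_pull]
    Lγ := fun b => by
      rw [LinearMap.mulLeft_apply, LinearMap.mulLeft_apply, W.mul_push i (W.cl_mem hD),
        ← W.cl_pull]
    hl := by
      rw [hn]
      exact hHL
    surj := hs.weak
    inj := fun q hq b hb h0 => by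
      apply W.nondeg
      intro c
      refine gr_induction (W.isInternal Y) (p := fun c => W.tr Y (b * c) = 0) ?_ ?_ c
      · intro s c hc
        by_cases hr : q + s = 2 * Y.dim
        · obtain ⟨a, _, rfl⟩ := hs.weak s (by omega) c hc
          rw [← W.tr_push, h0, zero_mul, map_zero]
        · exact W.tr_eq_zero (W.mul_mem hb hc) hr
      · intro c c' hc hc'
        rw [mul_add, map_add, hc, hc', add_zero] }

lemma corr_mixDiff_pow (hD : X.IsCyc 1 D) (b : ℕ) (c : W.H (X.prod Y)) :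
    W.corr (W.cl _ (mixDiff ops i D) ^ b * c) =
      (mixOp (LinearMap.mulLeft W.K (W.cl X D))
        (LinearMap.mulLeft W.K (W.cl Y (ops.pull i D))) (-1) ^ b) (W.corr c) := by
  induction b with
  | zero => rw [pow_zero, one_mul, pow_zero]; rfl
  | succ b ih =>
    rw [pow_succ', mul_assoc, corr_mixDiff hD, ih, pow_succ', Module.End.mul_apply, mixOp_apply]
    apply LinearMap.ext
    intro a
    simp only [LinearMap.sub_apply, LinearMap.add_apply, LinearMap.smul_apply, neg_smul, one_smul,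
      sub_eq_add_neg, LinearMap.neg_apply]

/-- strings with different primitive degrees are orthogonal -/
lemma tr_strings (hD : X.IsCyc 1 D) {p q s t : ℕ} (hp : p ≤ X.dim) (hq : q ≤ X.dim) {a b : W.H X}
    (hpa : (LinearMap.mulLeft W.K (W.cl X D) ^ (X.dim - p + 1)) a = 0)
    (hqb : (LinearMap.mulLeft W.K (W.cl X D) ^ (X.dim - q + 1)) b = 0) (hne : p ≠ q)
    (hdeg : p + 2 * s + (q + 2 * t) = 2 * X.dim) :
    W.tr X ((LinearMap.mulLeft W.K (W.cl X D) ^ s) a *
      (LinearMap.mulLeft W.K (W.cl X D) ^ t) b) = 0 := by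
  have hc : ∀ (m : ℕ) (x : W.H X), W.cl X D ^ m * x = x * W.cl X D ^ m := by
    intro m x
    induction m with
    | zero => simp
    | succ m ih =>
      rw [pow_succ, mul_assoc, W.even_comm (W.cl_mem hD) x, ← mul_assoc, ih, mul_assoc]
  have e1 : (LinearMap.mulLeft W.K (W.cl X D) ^ s) a *
      (LinearMap.mulLeft W.K (W.cl X D) ^ t) b =
      (LinearMap.mulLeft W.K (W.cl X D) ^ (s + t)) a * b := by
    rw [LinearMap.pow_mulLeft, LinearMap.pow_mulLeft, LinearMap.pow_mulLeft,
      LinearMap.mulLeft_apply, LinearMap.mulLeft_apply, LinearMap.mulLeft_apply, pow_add,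
      hc s a, mul_assoc, ← mul_assoc (W.cl X D ^ s), ← pow_add, ← mul_assoc, ← hc]
  have e2 : (LinearMap.mulLeft W.K (W.cl X D) ^ s) a *
      (LinearMap.mulLeft W.K (W.cl X D) ^ t) b =
      a * (LinearMap.mulLeft W.K (W.cl X D) ^ (s + t)) b := by
    rw [LinearMap.pow_mulLeft, LinearMap.pow_mulLeft, LinearMap.pow_mulLeft,
      LinearMap.mulLeft_apply, LinearMap.mulLeft_apply, LinearMap.mulLeft_apply, hc s a,
      mul_assoc, ← mul_assoc (W.cl X D ^ s), ← pow_add]
  rcases lt_or_gt_of_ne hne with h | h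
  · rw [e2, L_pow_gt hqb (by omega), mul_zero, map_zero]
  · rw [e1, L_pow_gt hpa (by omega), zero_mul, map_zero]

lemma tr_map_map (hs : IsLinearSection W D i) (a b : W.H X) :
    W.tr Y (W.map i a * W.map i b) =
      W.tr X ((LinearMap.mulLeft W.K (W.cl X D) ^ (X.dim - Y.dim)) a * b) := by
  rw [← map_mul, LinearMap.pow_mulLeft, LinearMap.mulLeft_apply, mul_assoc]
  have h1 := W.tr_push i 1 (a * b)
  rw [one_mul, ← W.cl_fund Y, ← W.cl_push, hs.cls] at h1
  exact h1.symm

/-- the adjoint of the solution -/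
lemma S_string (hs : IsLinearSection W D i) (hD : X.IsCyc 1 D) (hHL : HardLefschetz W X D)
    {T : W.H X →ₗ[W.K] W.H Y} {S : W.H Y →ₗ[W.K] W.H X}
    (hTstr : ∀ p ≤ X.dim, ∀ a ∈ W.gr X p,
      (LinearMap.mulLeft W.K (W.cl X D) ^ (X.dim - p + 1)) a = 0 → ∀ s ≤ X.dim - p,
      T ((LinearMap.mulLeft W.K (W.cl X D) ^ s) a) = (s.choose (X.dim - Y.dim) : W.K) •
        W.map i ((LinearMap.mulLeft W.K (W.cl X D) ^ (s - (X.dim - Y.dim))) a))
    (hTS : ∀ a b, W.tr Y (T a * b) = W.tr X (a * S b)) {p t : ℕ} (hpt : p + 2 * t = Y.dim)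
    {a : W.H X} (ha : a ∈ W.gr X p)
    (hpa : (LinearMap.mulLeft W.K (W.cl X D) ^ (X.dim - p + 1)) a = 0) :
    S (W.map i ((LinearMap.mulLeft W.K (W.cl X D) ^ t) a)) =
      ((t + (X.dim - Y.dim)).choose (X.dim - Y.dim) : W.K) •
        (LinearMap.mulLeft W.K (W.cl X D) ^ t) a := by
  set L := LinearMap.mulLeft W.K (W.cl X D) with hL
  have hn := hs.le
  have hLh : IsHom (W.gr X) 2 L := isHom_mulLeft W hD
  rw [← sub_eq_zero]
  apply nondeg_right
  intro x
  rw [mul_sub, map_sub, ← hTS, sub_eq_zero, mul_smul_comm, map_smul, smul_eq_mul]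
  refine lef_induction' (W.isInternal X) hLh W_hbd hHL (p := fun x =>
    W.tr Y (T x * W.map i ((L ^ t) a)) =
      ((t + (X.dim - Y.dim)).choose (X.dim - Y.dim) : W.K) * W.tr X (x * (L ^ t) a)) ?_ ?_ x
  · intro b c hb hc
    rw [map_add, add_mul, map_add, hb, hc, add_mul, map_add, mul_add]
  · intro q hq b hb hpb s
    by_cases hsN : s ≤ X.dim - q
    · rw [hTstr q hq b hb hpb s hsN, smul_mul_assoc, map_smul, smul_eq_mul, tr_map_map hs,
        ← hL]
      have e1 : (s.choose (X.dim - Y.dim) : W.K) *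
          W.tr X ((L ^ (X.dim - Y.dim)) ((L ^ (s - (X.dim - Y.dim))) b) * (L ^ t) a) =
          (s.choose (X.dim - Y.dim) : W.K) * W.tr X ((L ^ s) b * (L ^ t) a) := by
        by_cases hsj : X.dim - Y.dim ≤ s
        · rw [← Module.End.mul_apply, ← pow_add,
            show X.dim - Y.dim + (s - (X.dim - Y.dim)) = s by omega]
        · rw [Nat.choose_eq_zero_of_lt (by omega), Nat.cast_zero, zero_mul, zero_mul]
      rw [e1]
      by_cases hdeg : q + 2 * s + (p + 2 * t) = 2 * X.dim
      · by_cases hpq : q = p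
        · subst hpq
          rw [show t + (X.dim - Y.dim) = s by omega]
        · rw [tr_strings hD hq (by omega) hpb hpa hpq hdeg, mul_zero, mul_zero]
      · rw [W.tr_eq_zero (W.mul_mem (pow_L_mem hLh hb s) (pow_L_mem hLh ha t)) hdeg, mul_zero,
          mul_zero]
    · rw [L_pow_gt hpb (by omega), map_zero, zero_mul, map_zero, zero_mul, map_zero, mul_zero]

/-- a rational polynomial which inverts finitely many nonzero numbers -/
lemma exists_inv_poly (m : ℕ) (lam : ℕ → ℚ) (hlam : ∀ t, lam t ≠ 0) :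
    ∃ q : ℚ[X], ∀ t < m, q.eval (lam t) * lam t = 1 := by
  set P : ℚ[X] := ∏ t ∈ range m, (X - C (lam t)) with hP
  have h0 : P.coeff 0 ≠ 0 := by
    rw [coeff_zero_eq_eval_zero, hP, eval_prod]
    apply Finset.prod_ne_zero_iff.2
    intro t _
    simp [hlam t]
  refine ⟨C (-(P.coeff 0)⁻¹) * P.divX, fun t ht => ?_⟩
  have h1 := congrArg (eval (lam t)) (divX_mul_X_add P)
  have h2 : P.eval (lam t) = 0 := by
    rw [hP, eval_prod]
    exact Finset.prod_eq_zero (Finset.mem_range.2 ht) (by simp)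
  rw [h2, eval_add, eval_mul, eval_X, eval_C] at h1
  rw [eval_mul, eval_C, mul_assoc, eq_neg_of_add_eq_zero_left h1]
  field_simp

lemma ev_eig {K V : Type*} [Field K] [CharZero K] [AddCommGroup V] [Module K V]
    {E : Module.End K V} {x : V} {c : ℚ} (hx : E x = (c : K) • x) (q : ℚ[X]) :
    ev E q x = ((q.eval c : ℚ) : K) • x := by
  induction q using Polynomial.induction_on' with
  | add p q hp hq => rw [map_add, LinearMap.add_apply, hp, hq, eval_add, Rat.cast_add, add_smul]
  | monomial r d =>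
    have h1 : ∀ r : ℕ, (E ^ r) x = ((c ^ r : ℚ) : K) • x := by
      intro r
      induction r with
      | zero => simp
      | succ r ih =>
        rw [pow_succ', Module.End.mul_apply, ih, map_smul, hx, smul_smul, pow_succ]
        push_cast
        rfl
    rw [← C_mul_X_pow_eq_monomial, map_mul, map_pow, ev_C, ev_X, smul_mul_assoc, one_mul,
      LinearMap.smul_apply, h1, smul_smul, eval_mul, eval_C, eval_pow, eval_X]
    push_cast
    rfl

/-- **The inverse in the degree `dim Y` from a solution.** -/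
theorem exists_inv (hs : IsLinearSection W D i) (hD : X.IsCyc 1 D) (hHL : HardLefschetz W X D)
    {T : W.H X →ₗ[W.K] W.H Y} {S : W.H Y →ₗ[W.K] W.H X}
    (hT : T ∈ KOp W X Y (-((X.dim - Y.dim : ℕ) : ℤ)))
    (hTι : (mixOp (LinearMap.mulLeft W.K (W.cl X D))
      (LinearMap.mulLeft W.K (W.cl Y (ops.pull i D))) (-1) ^ (X.dim - Y.dim)) T =
        (W.map i).toLinearMap)
    (hTS : ∀ a b, W.tr Y (T a * b) = W.tr X (a * S b)) :
    ∃ q : ℚ[X], ∀ a ∈ W.gr X Y.dim,
      (ev ((S ∘ₗ T) * LinearMap.mulLeft W.K (W.cl X D) ^ (X.dim - Y.dim)) q)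
        (((S ∘ₗ T) * LinearMap.mulLeft W.K (W.cl X D) ^ (X.dim - Y.dim)) a) = a := by
  set L := LinearMap.mulLeft W.K (W.cl X D) with hL
  have hn := hs.le
  have hLh : IsHom (W.gr X) 2 L := isHom_mulLeft W hD
  have h := hs.lsec hD hHL
  have hnn : Y.dim + (X.dim - Y.dim) = X.dim := by omega
  obtain ⟨Lam, hLamh, hLam⟩ := exists_isLam (W.isInternal X) hLh W_hbd hHL
  rw [← hnn] at hLam
  have hTh : ∀ q : ℤ, ∀ a ∈ grZ (W.gr X) q,
      T a ∈ grZ (W.gr Y) (q + 2 * (-((X.dim - Y.dim : ℕ) : ℤ))) := fun q a ha =>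
    KOp.isHom hT q a ha
  have hTe := T_eq h hLam hLamh hTh hTι
  have hTstr : ∀ p ≤ X.dim, ∀ a ∈ W.gr X p, (L ^ (X.dim - p + 1)) a = 0 → ∀ s ≤ X.dim - p,
      T ((L ^ s) a) = (s.choose (X.dim - Y.dim) : W.K) •
        W.map i ((L ^ (s - (X.dim - Y.dim))) a) := by
    intro p hp a ha hpa s hsp
    exact T_string hLam hTe (by omega) ha (by rwa [hnn]) (by omega)
  obtain ⟨q, hq⟩ := exists_inv_poly (Y.dim + 1)
    (fun t => ((t + (X.dim - Y.dim)).choose (X.dim - Y.dim) : ℚ) ^ 2) (fun t => by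
      have : (t + (X.dim - Y.dim)).choose (X.dim - Y.dim) ≠ 0 :=
        (Nat.choose_pos (by omega)).ne'
      positivity)
  refine ⟨q, ?_⟩
  have key := lef_induction (n := X.dim) hLh W_hbd hHL (p := fun m a => m = Y.dim →
    (ev ((S ∘ₗ T) * L ^ (X.dim - Y.dim)) q) (((S ∘ₗ T) * L ^ (X.dim - Y.dim)) a) = a)
    (fun m a b ha hb hm => by rw [map_add, map_add, ha hm, hb hm]) ?_
  · intro a ha
    exact key Y.dim hn a ha 0 (by ring)
  · intro p hp a ha hpa t hpt
    have hE : ((S ∘ₗ T) * L ^ (X.dim - Y.dim)) ((L ^ t) a) =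
        (((((t + (X.dim - Y.dim)).choose (X.dim - Y.dim) : ℚ) ^ 2 : ℚ)) : W.K) • (L ^ t) a := by
      rw [Module.End.mul_apply, ← Module.End.mul_apply (L ^ (X.dim - Y.dim)), ← pow_add,
        LinearMap.comp_apply, hTstr p hp a ha hpa _ (by omega),
        show X.dim - Y.dim + t - (X.dim - Y.dim) = t by omega, map_smul,
        S_string hs hD hHL hTstr hTS hpt ha hpa, smul_smul, ← hL,
        show X.dim - Y.dim + t = t + (X.dim - Y.dim) by ring]
      push_cast
      ring_nf
    rw [hE, map_smul, ev_eig hE, smul_smul, ← Rat.cast_mul, mul_comm, hq t (by omega),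
      Rat.cast_one, one_smul]

end Pool.Agent.N190.Lin
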