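import Pool.Agent.N190.Lin.Geo

/-!
# From the divisibility of the graph of a linear section to the conjecture B in one degree
-/

set_option autoImplicit false

open CategoryTheory AlgebraicGeometry Finset Polynomial

universe u v

namespace Pool.Agent.N190.Lin

open Pool.Agent.H914 Pool.Agent.H447 Pool.Agent.W534 Pool.Agent.W537 VarClass Obj WeilCohomology

variable {k : Type u} [Field k] {𝒱 : VarClass k} {ops : CycleOps 𝒱}
  {W : WeilCohomology.{u, v} ops} {X Y Z : 𝒱.Obj} {i : Y ⟶ X} {D : X.Cycles}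

/-- There is a `K`-linear combination of algebraic correspondences which induces the inverse of
`L ^ (n - m) : H^m → H^(2n - m)`. -/
def KInvIn (W : WeilCohomology.{u, v} ops) (X : 𝒱.Obj) (D : X.Cycles) (m : ℕ) : Prop :=
  ∃ θ ∈ KOp W X X (-((X.dim - m : ℕ) : ℤ)), ∀ a ∈ W.gr X m,
    θ ((LinearMap.mulLeft W.K (W.cl X D) ^ (X.dim - m)) a) = a

/-- The divisibility of the graph gives the inverse in the degree `dim Y`. -/
theorem inverts_of_quotient (hs : IsLinearSection W D i) (hD : X.IsCyc 1 D)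
    (hHL : HardLefschetz W X D) {z : (X.prod Y).Cycles} (hz : IsGraphQuotient W D i z) :
    ∃ w, InvertsLefschetz W X D Y.dim w := by
  have hn := hs.le
  have hOA := rop_opAlg (W := W) (X := X)
  set j := X.dim - Y.dim with hj
  have hTq : QOp W X Y (-(j : ℤ)) (W.corr (W.cl _ z)) := QOp.gen (p := Y.dim) (by omega) hz.1
  have hSq : QOp W Y X 0 (W.corr (W.cl _ (ops.pull (swap Y X) z))) :=
    QOp.gen (p := Y.dim) (by omega) (ops.pull_mem _ hz.1)
  have hTS : ∀ a b, W.tr Y (W.corr (W.cl _ z) a * b) =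
      W.tr X (a * W.corr (W.cl _ (ops.pull (swap Y X) z)) b) := by
    intro a b
    rw [W.cl_pull]
    exact tr_corr_swap (W.cl_mem hz.1) a b
  have hTι : (mixOp (LinearMap.mulLeft W.K (W.cl X D))
      (LinearMap.mulLeft W.K (W.cl Y (ops.pull i D))) (-1) ^ (X.dim - Y.dim))
        (W.corr (W.cl _ z)) = (W.map i).toLinearMap := by
    rw [← corr_mixDiff_pow hD, hz.2, corr_graph]
  obtain ⟨q, hq⟩ := exists_inv hs hD hHL hTq.kop hTι hTS
  set u := W.corr (W.cl _ (ops.pull (swap Y X) z)) ∘ₗ W.corr (W.cl _ z) with hu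
  have huR : ROp W X (-(j : ℤ)) u := rop_iff.2 ((hSq.comp hTq).cast (by ring))
  have hLR := rop_mulLeft (W := W) hD
  have hER : ROp W X 0 (u * LinearMap.mulLeft W.K (W.cl X D) ^ j) :=
    hOA.cast (hOA.mul huR (hOA.pow hLR j)) (by ring)
  have hΘ : ROp W X (-(j : ℤ)) (ev (u * LinearMap.mulLeft W.K (W.cl X D) ^ j) q * u) :=
    hOA.cast (hOA.mul (hOA.ev hER q) huR) (by ring)
  obtain ⟨w, hw, hwΘ⟩ := (rop_iff.1 hΘ).exists_cyc (p := Y.dim) (by omega)
  refine ⟨w, (inverts_iff hD W hn).2 ⟨hw, fun a ha => ?_⟩⟩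
  rw [hwΘ]
  rw [show X.dim - (X.dim - Y.dim) = Y.dim by omega] at ha
  exact hq a ha

/-- The divisibility of the graph with coefficients. -/
theorem kinvIn_of_span (hs : IsLinearSection W D i) (hD : X.IsCyc 1 D)
    (hHL : HardLefschetz W X D) (hc : GraphInSpan W D i) : KInvIn W X D Y.dim := by
  have hn := hs.le
  have hOA := (rop_opAlg (W := W) (X := X)).kspan
  set j := X.dim - Y.dim with hj
  obtain ⟨c, hc, hc'⟩ := hc
  have hT : W.corr c ∈ KOp W X Y (-(j : ℤ)) :=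
    mem_KOp_iff.2 ⟨c, by rwa [show (X.dim : ℤ) + -(j : ℤ) = Y.dim by omega], rfl⟩
  obtain ⟨S, hS, hTS⟩ := KOp.exists_adjoint hT
  have hTι : (mixOp (LinearMap.mulLeft W.K (W.cl X D))
      (LinearMap.mulLeft W.K (W.cl Y (ops.pull i D))) (-1) ^ (X.dim - Y.dim))
        (W.corr c) = (W.map i).toLinearMap := by
    rw [← corr_mixDiff_pow hD, hc', corr_graph]
  obtain ⟨q, hq⟩ := exists_inv hs hD hHL hT hTι hTS
  set u := S ∘ₗ W.corr c with hu
  have huK : u ∈ KOp W X X (-(j : ℤ)) := KOp.cast (KOp.comp hS hT) (by omega)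
  have hLR : LinearMap.mulLeft W.K (W.cl X D) ∈ KS (ROp W X) 1 :=
    Submodule.subset_span (rop_mulLeft (W := W) hD)
  have hER : u * LinearMap.mulLeft W.K (W.cl X D) ^ j ∈ KS (ROp W X) 0 :=
    hOA.cast (hOA.mul (mem_KS_iff.2 huK) (hOA.pow hLR j)) (by ring)
  refine ⟨ev (u * LinearMap.mulLeft W.K (W.cl X D) ^ j) q * u, ?_, fun a ha => hq a ha⟩
  rw [← mem_KS_iff]
  exact hOA.cast (hOA.mul (hOA.ev hER q) (mem_KS_iff.2 huK)) (by rw [← hj]; ring)

/-- Equality of ranks gives the divisibility of the graph with coefficients. -/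
theorem span_of_rank (hs : IsLinearSection W D i) (hD : X.IsCyc 1 D)
    (hHL : HardLefschetz W X D)
    (hr : cycleRank W (X.prod Y) Y.dim = cycleRank W (X.prod Y) X.dim) : GraphInSpan W D i := by
  have hn := hs.le
  have h := hs.lsec hD hHL
  set L := LinearMap.mulLeft W.K (W.cl X D) with hL
  set M := LinearMap.mulLeft W.K (W.cl Y (ops.pull i D)) with hM
  have hpow : ∀ (s : ℕ) (d : ℤ) (φ : W.H X →ₗ[W.K] W.H Y), φ ∈ KOp W X Y d →
      (mixOp L M (-1) ^ s) φ ∈ KOp W X Y (d + s) := by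
    intro s d φ hφ
    induction s with
    | zero => simpa using hφ
    | succ s ih =>
      rw [pow_succ', Module.End.mul_apply]
      exact KOp.cast (mixOp_mem hD _ ih) (by push_cast; ring)
  obtain ⟨T, hT, hT2⟩ := surj_of_finrank_eq
    (A := KOp W X Y (-((X.dim - Y.dim : ℕ) : ℤ))) (B := KOp W X Y 0)
    (T := mixOp L M (-1) ^ (X.dim - Y.dim))
    (fun x hx => KOp.cast (hpow _ _ x hx) (by ring))
    (fun x hx h0 => mix_pow_inj h (fun q a ha => KOp.isHom hx q a ha) h0)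
    (by
      rw [finrank_KOp, finrank_KOp, add_zero,
        show (X.dim : ℤ) + -((X.dim - Y.dim : ℕ) : ℤ) = Y.dim by omega]
      exact hr) _ (qop_pull i).kop
  obtain ⟨c, hc, rfl⟩ := mem_KOp_iff.1 hT
  refine ⟨c, ?_, ?_⟩
  · rwa [show (X.dim : ℤ) + -((X.dim - Y.dim : ℕ) : ℤ) = Y.dim by omega] at hc
  · rw [← sub_eq_zero]
    apply corr_inj
    rw [corr_sub'', corr_mixDiff_pow hD, hT2, corr_graph, sub_self]

end Pool.Agent.N190.Lin
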